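import Pool.Agent.H739.RM.Model
import Pool.Agent.H739.RM.Plain
import Pool.Agent.H739.RM.Triv

/-!
# MP_24eb62_lc, Q1: consistently `|R(x)|` depends on the point `x` of `ω*`

`OmegaStar` is the space of the free ultrafilters on `ℕ`, `Minus x` its subspace `ω* \ {x}` and `R x`
the Stone-Čech remainder of `Minus x`.

First part: a notion of forcing (a finite support iteration: first `2 ^ ℵ₁` Cohen reals, then `ω₁`
steps of Laver-Prikry forcing with ultrafilters which include the tower built so far) every
condition of which forces the principle `Principle W L` for a well-ordered set `W` all of whose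
initial segments are countable: a tower of length `W` generates an ultrafilter, a family indexed by
`W` is dominating, there are at least `|L|` sets of natural numbers and at most `|L|` subsets of `W`
(so `2 ^ |W| ≤ 𝔠`).
Second part: the principle implies that `R x` has at least two points for some `x`, and exactly one
point for `2 ^ 𝔠` points of `ω*`.
Third part: for the trivial forcing the forced sentence is the principle (a check of the
translation into the forcing language).
-/

set_option autoImplicit false

namespace Pool.Agent.Results.MP_24eb62_lc.DependsOnPoint

open Cardinal Pool.Agent.R590.Rm Pool.Agent.H739.RM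

/-- 1. Some nonempty preorder `P` forces `Principle W L`, where `W` is a well-ordered set with
countable initial segments. 2. For all such `W`, the principle implies that some `R x` has at least
two points, that exactly one point is in `R y` for `2 ^ 𝔠` points `y`, and so that
`#(R x) ≠ #(R y)` for some `x`, `y`. 3. For the one-point preorder the forced sentence is
equivalent to the principle. -/
theorem result :
    (∃ (P : Type) (_ : Preorder P) (W L : Type) (_ : LinearOrder W) (_ : WellFoundedLT W),
      Nonempty P ∧ (∀ a : W, (Set.Iio a).Countable) ∧ ∀ p : P, p ∈ FPrinciple P W L) ∧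
    (∀ (W L : Type) [LinearOrder W] [WellFoundedLT W], (∀ a : W, (Set.Iio a).Countable) →
      Principle W L →
        (∃ x : OmegaStar, 2 ≤ #(R x)) ∧ #{y : OmegaStar // #(R y) = 1} = 2 ^ 𝔠 ∧
          ∃ x y : OmegaStar, #(R x) ≠ #(R y)) ∧
    (∀ (W L : Type) [LinearOrder W] (p : Unit), p ∈ FPrinciple Unit W L ↔ Principle W L) :=
  ⟨exists_model, fun W L _ _ hW h =>
    ⟨(plain_strong W L hW h).1, (plain_strong W L hW h).2, plain W L hW h⟩,
    fun W L _ p => trivial_iff W L p⟩

end Pool.Agent.Results.MP_24eb62_lc.DependsOnPoint
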